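import Pool.Agent.MWKP.Stmts

/-!
# MWKP, row INA: insertion of `x^n` in front of a wall, type A
-/

set_option autoImplicit false

namespace Pool.Agent.MWKP.H60

open Pool.Agent.Helper14_MV Pool.Agent.Helper2_MV Pool.Agent.MWK Pool.Agent.MWKP

theorem pw_single (n x : ℕ) : pw n [x] = List.replicate n x := by
  unfold pw
  induction n with
  | zero => rfl
  | succ n ih =>
    rw [List.replicate_succ, List.flatten_cons, ih, List.replicate_succ]
    rfl

/-- a letter `z` whose first occurrence is between the first and the second occurrence of `x` has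
small depth only if `x` has -/
theorem notDp {m : ℕ} {w P₁ P₂ T : List ℕ} {x z : ℕ} (hw : w = P₁ ++ x :: P₂ ++ T)
    (h1 : x ∉ P₁) (h2 : x ∉ P₂) (hz : z ∈ P₂) (hz1 : z ∉ P₁) (hx : ¬ Dp (m + 1) w x) :
    ¬ Dp m w z := by
  intro h
  apply hx
  refine Dp.step h ?_
  obtain ⟨B, hB⟩ := mem_split hz
  have hzx : z ≠ x := by
    rintro rfl
    exact h2 hz
  have h3 : w = (P₁ ++ x :: pre P₂ z) ++ z :: (B ++ T) := by
    rw [hw]
    conv_lhs => rw [hB]
    simp
  have h4 : z ∉ P₁ ++ x :: pre P₂ z := by
    simp only [List.mem_append, List.mem_cons, not_or]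
    exact ⟨hz1, hzx, not_mem_pre P₂ z⟩
  rw [h3, pre_split h4, List.count_append, List.count_cons_self, List.count_eq_zero.2 h1,
    List.count_eq_zero.2 (fun hm => h2 (mem_of_mem_pre hm))]

/-- `x` is dead in front of the next wall -/
theorem dead_q {m : ℕ} {w P q R₀ : List ℕ} {x y : ℕ} (hw : w = P ++ y :: q ++ R₀)
    (hCX : CX m w y x) (hR : R₀ = [] ∨ ∃ t R', R₀ = t :: R' ∧ t ∉ P ++ y :: q ∧ Dp m w t) :
    2 ≤ (P ++ y :: q).count x := by
  rcases hR with h | ⟨t, R', h, ht, hD⟩
  · have h1 := hCX.1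
    rw [hw, h, List.append_nil] at h1
    exact h1
  · have h1 : pre w t = P ++ y :: q := by
      rw [hw, h]
      exact pre_split ht R'
    have h2 := hCX.2 t hD (by rw [h1]; simp)
    rw [h1] at h2
    exact h2

theorem ipt_eq {w P Q : List ℕ} {x y N : ℕ} (hP : pre w y = P) (hw : w = P ++ y :: Q) :
    ipt w y x N = P ++ List.replicate N x ++ y :: Q := by
  unfold ipt
  rw [hP]
  conv_lhs => rw [hw]
  rw [List.drop_left]

theorem kdd_ins (kdd : KddStmt) {n : ℕ} {θ : FIC} (hK : Kn n θ) {P Q : List ℕ} {x : ℕ}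
    (hx : 2 ≤ P.count x) : RR θ (P ++ Q) (P ++ List.replicate n x ++ Q) := by
  have h := kdd n θ hK P [] (List.replicate n x) Q (by simp) (fun l hl => by
    rw [List.eq_of_mem_replicate hl]
    exact hx) (fun l => by
    by_cases hl : l = x
    · subst hl
      rw [List.count_nil, List.count_replicate_self]
      simp [Nat.ModEq]
    · rw [List.count_nil, List.count_replicate, if_neg (by simpa using Ne.symm hl)])
  rw [List.append_nil] at h
  exact h

theorem ina (kdd : KddStmt) : InaStmt := by
  intro n θ hK m w x y hW hy hxy hm hm1 hCX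
  obtain ⟨Q, hQ⟩ := mem_split hy
  obtain ⟨P, hP⟩ : ∃ P, pre w y = P := ⟨_, rfl⟩
  rw [hP] at hQ hxy
  have hyP : y ∉ P := by
    rw [← hP]
    exact not_mem_pre w y
  rw [ipt_eq hP hQ]
  by_cases h2 : 2 ≤ P.count x
  · have h := kdd_ins kdd hK (Q := y :: Q) h2
    rw [← hQ] at h
    exact h
  · obtain ⟨P₂, hP₂⟩ := mem_split hxy
    obtain ⟨P₁, hP₁⟩ : ∃ P₁, pre P x = P₁ := ⟨_, rfl⟩
    rw [hP₁] at hP₂
    have hx1 : x ∉ P₁ := by
      rw [← hP₁]
      exact not_mem_pre P x
    have hx2 : x ∉ P₂ := by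
      intro hm2
      have hc : P.count x = P₁.count x + (1 + P₂.count x) := by
        conv_lhs => rw [hP₂]
        rw [List.count_append, List.count_cons_self]
        omega
      have := List.count_pos_iff.2 hm2
      omega
    -- letters of `P₂`
    have key : ∀ (A : List ℕ), (∀ l, P.count l ≤ A.count l) → ∀ z ∈ P₂,
        2 ≤ A.count z ∨ (z ∈ A ∧ ¬ Dp m w z) := by
      intro A hA z hz
      have hc := hA z
      have h5 : P.count z = P₁.count z + (x :: P₂).count z := by
        conv_lhs => rw [hP₂]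
        exact List.count_append
      have h6 : P₂.count z ≤ (x :: P₂).count z := List.count_le_count_cons
      have h7 : 0 < P₂.count z := List.count_pos_iff.2 hz
      by_cases hz1 : z ∈ P₁
      · left
        have h8 : 0 < P₁.count z := List.count_pos_iff.2 hz1
        omega
      · right
        refine ⟨List.count_pos_iff.1 (by omega), notDp (T := y :: Q) ?_ hx1 hx2 hz hz1 hm1⟩
        rw [← hP₂]
        exact hQ
    obtain ⟨q, R₀, hq, hq1, hq2⟩ := T.cut (Dp m w) (P ++ [y]) Q
    have hw : w = P ++ y :: q ++ R₀ := by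
      rw [hQ, hq]
      simp
    have hdead : 2 ≤ (P ++ y :: q).count x := by
      refine dead_q hw hCX ?_
      rcases hq2 with h | ⟨t, R', h, ht, hD⟩
      · exact Or.inl h
      · refine Or.inr ⟨t, R', h, ?_, hD⟩
        simpa using ht
    -- (1)
    obtain ⟨qs, R, hlen, hR₀, hok, -⟩ := T.seg m w (P ++ y :: q) R₀ (P₂ ++ y :: q) hw (by
      intro z hz
      rcases List.mem_append.1 hz with hz | hz
      · refine key _ (fun l => ?_) z hz
        rw [List.count_append]
        omega
      · rcases List.mem_cons.1 hz with rfl | hz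
        · exact Or.inr ⟨by simp, hm⟩
        · by_cases hzA : z ∈ P ++ [y]
          · left
            have e : P ++ y :: q = (P ++ [y]) ++ q := by simp
            rw [e, List.count_append]
            have h8 := List.count_pos_iff.2 hzA
            have h9 := List.count_pos_iff.2 hz
            omega
          · exact Or.inr ⟨by simp [hz], hq1 z hz hzA⟩)
    have hok1 : Ok (P₁ ++ [x] ++ (P₂ ++ y :: q)) (P₂ ++ y :: q) qs := by
      have e : P₁ ++ [x] ++ (P₂ ++ y :: q) = P ++ y :: q := by
        rw [hP₂]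
        simp
      rw [e]
      exact hok
    have s1 := hW P₁ [x] (P₂ ++ y :: q) qs R hlen hok1
    rw [pw_single, List.append_assoc _ qs.flatten R, List.append_assoc _ qs.flatten R,
      ← hR₀] at s1
    -- (2)
    obtain ⟨qs', R', hlen', hR', hok', -⟩ := T.seg m w P (y :: Q) P₂ hQ (key P fun l => le_rfl)
    have hok2 : Ok (P₁ ++ [x] ++ P₂) P₂ qs' := by
      have e : P₁ ++ [x] ++ P₂ = P := by
        rw [hP₂]
        simp
      rw [e]
      exact hok'
    have s2 := hW P₁ [x] P₂ qs' R' hlen' hok2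
    rw [pw_single, List.append_assoc _ qs'.flatten R', List.append_assoc _ qs'.flatten R',
      ← hR'] at s2
    -- (3)
    have s3 := kdd_ins kdd hK (Q := R₀) hdead
    have e1 : P ++ y :: q ++ List.replicate n x ++ R₀ =
        P₁ ++ [x] ++ (P₂ ++ y :: q) ++ List.replicate n x ++ R₀ := by
      rw [hP₂]
      simp
    have e2 : P₁ ++ [x] ++ List.replicate n x ++ (P₂ ++ y :: q) ++ R₀ =
        P₁ ++ [x] ++ List.replicate n x ++ P₂ ++ y :: Q := by
      rw [hq]
      simp
    have e3 : P₁ ++ [x] ++ P₂ ++ List.replicate n x ++ y :: Q =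
        P ++ List.replicate n x ++ y :: Q := by
      rw [hP₂]
      simp
    rw [← hw, e1] at s3
    rw [e2] at s1
    rw [e3] at s2
    exact θ.trans s3 (θ.trans (RR.symm s1) s2)

end Pool.Agent.MWKP.H60
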